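import Pool.Agent.H13.PW.PWE

/-!
# PW: the theorem on few distinct large exponents, with coefficients (S_PWC => S_PWA, S_PWE)
-/

set_option autoImplicit false

namespace Pool.PW

open Finset Pool.Agent.H98.ABCR

open H13E in
theorem pwa_thm (h : S_PWC) : S_PWA := by
  classical
  intro N E ε hε
  have hE : (0 : ℝ) < (E : ℝ) + 1 := by positivity
  have hN : (0 : ℝ) < (N : ℝ) + 1 := by positivity
  obtain ⟨K', η', X0, hK', hη', hη1, hX0, hS⟩ :=
    h (3 * (N + 1)) (ε / (2 * ((E : ℝ) + 1))) (by positivity)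
  set η : ℝ := min (η' / 2) (ε / (12 * ((N : ℝ) + 1))) with hη
  have hη0 : 0 < η := lt_min (by positivity) (by positivity)
  have hηa : η ≤ η' / 2 := min_le_left _ _
  have hηb : η ≤ ε / (12 * ((N : ℝ) + 1)) := min_le_right _ _
  set X1 : ℝ := max X0 (max ((2 : ℝ) ^ (2 / η')) (((3 : ℝ) ^ (3 * N)) ^ (4 / ε))) with hX1
  have hX1a : X0 ≤ X1 := le_max_left _ _
  have hX1b : (2 : ℝ) ^ (2 / η') ≤ X1 := (le_max_left _ _).trans (le_max_right _ _)
  have hX1c : ((3 : ℝ) ^ (3 * N)) ^ (4 / ε) ≤ X1 := (le_max_right _ _).trans (le_max_right _ _)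
  have hX1d : 2 ≤ X1 := hX0.trans hX1a
  set B0 : ℕ := ⌊Real.exp (X1 ^ η)⌋₊ + 1 with hB0
  refine ⟨K' * ((E : ℝ) + 1), η, max 1 ((B0 : ℝ) * B0), ?_, hη0, le_max_left _ _, ?_⟩
  · have : (1 : ℝ) ≤ (E : ℝ) + 1 := by linarith [(Nat.cast_nonneg E : (0 : ℝ) ≤ (E : ℝ))]
    nlinarith
  intro X A F hX hF
  have hXpos : 0 < X := by linarith
  have hXe : 1 ≤ X ^ ε := Real.one_le_rpow hX hε.le
  have hC1 : (1 : ℝ) ≤ max 1 ((B0 : ℝ) * B0) := le_max_left _ _
  rcases F.eq_empty_or_nonempty with hF0 | ⟨v0, hv0⟩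
  · rw [hF0]
    simp only [Finset.card_empty, Nat.cast_zero]
    positivity
  have hA1 : (1 : ℝ) ≤ (A.card : ℝ) := by
    obtain ⟨α, hα, -⟩ := (hF v0 hv0).2.2.2.2
    have : 0 < A.card := Finset.card_pos.2 ⟨α, hα⟩
    exact_mod_cast this
  rcases lt_or_ge X X1 with hlt | hge
  · -- small `X`
    have h1 : F ⊆ range B0 ×ˢ range B0 := by
      intro v hv
      obtain ⟨h2, -, -, h3, -⟩ := hF v hv
      have h4 : Real.log ((v.1 + v.2 : ℕ) : ℝ) ≤ X1 ^ η :=
        h3.trans (Real.rpow_le_rpow hXpos.le hlt.le hη0.le)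
      have h5 : (0 : ℝ) < ((v.1 + v.2 : ℕ) : ℝ) := by
        have := h2.1
        exact_mod_cast (by omega : 0 < v.1 + v.2)
      have h6 : ((v.1 + v.2 : ℕ) : ℝ) ≤ Real.exp (X1 ^ η) := by
        rw [← Real.exp_log h5]
        exact Real.exp_le_exp.2 h4
      have h7 : v.1 + v.2 ≤ ⌊Real.exp (X1 ^ η)⌋₊ := Nat.le_floor h6
      rw [Finset.mem_product, Finset.mem_range, Finset.mem_range]
      constructor <;> omega
    have h2 : F.card ≤ B0 * B0 := by
      have := Finset.card_le_card h1
      rwa [Finset.card_product, Finset.card_range] at this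
    have h3 : (F.card : ℝ) ≤ (B0 : ℝ) * B0 := by exact_mod_cast h2
    calc (F.card : ℝ) ≤ max 1 ((B0 : ℝ) * B0) := h3.trans (le_max_right _ _)
      _ = max 1 ((B0 : ℝ) * B0) * 1 * 1 := by ring
      _ ≤ max 1 ((B0 : ℝ) * B0) * A.card * X ^ ε := by gcongr
  · -- large `X`
    have hXE : X ≤ X ^ (E + 1) := by
      calc X = X ^ 1 := (pow_one X).symm
        _ ≤ X ^ (E + 1) := pow_le_pow_right₀ hX (by omega)
    have hXE1 : 1 ≤ X ^ (E + 1) := one_le_pow₀ hX
    have h2X : 2 ≤ X ^ (η' / 2) := by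
      have h1 : ((2 : ℝ) ^ (2 / η')) ^ (η' / 2) ≤ X ^ (η' / 2) :=
        Real.rpow_le_rpow (by positivity) (hX1b.trans hge) (by positivity)
      rw [← Real.rpow_mul (by norm_num)] at h1
      have h2 : 2 / η' * (η' / 2) = 1 := by field_simp
      rw [h2, Real.rpow_one] at h1
      exact h1
    have h2b : 2 * X ^ η ≤ (X ^ (E + 1)) ^ η' := by
      have h1 : X ^ η ≤ X ^ (η' / 2) := Real.rpow_le_rpow_of_exponent_le hX hηa
      have h3 : X ^ (η' / 2) * X ^ (η' / 2) = X ^ η' := by
        rw [← Real.rpow_add hXpos]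
        congr 1
        ring
      have h4 : X ^ η' ≤ (X ^ (E + 1)) ^ η' := Real.rpow_le_rpow hXpos.le hXE hη'.le
      have h5 : 0 ≤ X ^ η := (Real.rpow_pos_of_pos hXpos η).le
      nlinarith
    have hone : 1 ≤ X ^ η := Real.one_le_rpow hX hη0.le
    set M : ℕ := ⌊2 * X ^ η⌋₊ with hM
    -- number of classes
    have hcl : (((M + 1) ^ N) ^ 3 : ℝ) ≤ X ^ (ε / 2) := by
      have h1 : ((M : ℝ) + 1) ≤ 3 * X ^ η := by
        have h2 : (M : ℝ) ≤ 2 * X ^ η := Nat.floor_le (by positivity)
        linarith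
      have h3 : (((M : ℝ) + 1) ^ N) ^ 3 ≤ (3 : ℝ) ^ (3 * N) * (X ^ η) ^ (3 * N) := by
        rw [← mul_pow, ← pow_mul, mul_comm N 3]
        exact pow_le_pow_left₀ (by positivity) h1 _
      have h4 : (3 : ℝ) ^ (3 * N) ≤ X ^ (ε / 4) := by
        have h5 : (((3 : ℝ) ^ (3 * N)) ^ (4 / ε)) ^ (ε / 4) ≤ X ^ (ε / 4) :=
          Real.rpow_le_rpow (by positivity) (hX1c.trans hge) (by positivity)
        rw [← Real.rpow_mul (by positivity)] at h5
        have h6 : 4 / ε * (ε / 4) = 1 := by field_simp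
        rw [h6, Real.rpow_one] at h5
        exact h5
      have h7 : (X ^ η) ^ (3 * N) ≤ X ^ (ε / 4) := by
        rw [← Real.rpow_natCast, ← Real.rpow_mul hXpos.le]
        refine Real.rpow_le_rpow_of_exponent_le hX ?_
        push_cast
        have h8 : η * (3 * (N : ℝ)) ≤ ε / (12 * ((N : ℝ) + 1)) * (3 * (N : ℝ)) :=
          mul_le_mul_of_nonneg_right hηb (by positivity)
        have h9 : ε / (12 * ((N : ℝ) + 1)) * (3 * (N : ℝ)) ≤ ε / 4 := by
          rw [div_mul_eq_mul_div, div_le_div_iff₀ (by positivity) (by norm_num)]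
          nlinarith
        linarith
      calc (((M : ℝ) + 1) ^ N) ^ 3 ≤ (3 : ℝ) ^ (3 * N) * (X ^ η) ^ (3 * N) := h3
        _ ≤ X ^ (ε / 4) * X ^ (ε / 4) := by
            apply mul_le_mul h4 h7 (by positivity)
            exact (Real.rpow_pos_of_pos hXpos _).le
        _ = X ^ (ε / 2) := by
            rw [← Real.rpow_add hXpos]
            congr 1
            ring
    set P : Finset (Fin 3 → Fin N → ℕ) :=
      Fintype.piFinset (fun _ : Fin 3 => Fintype.piFinset (fun _ : Fin N => range (M + 1))) with hP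
    have hPc : P.card = ((M + 1) ^ N) ^ 3 := by
      rw [hP]
      simp
    set cls : (Fin 3 → ℕ) → (Fin 3 → Fin N → ℕ) → Finset (ℕ × ℕ) := fun α e =>
      F.filter (fun v => ∀ s, α s ∣ coord v s ∧ (bigexp E (coord v s / α s)).card ≤ N ∧
        e s = elist N (bigexp E (coord v s / α s))) with hcls
    have hcover : F ⊆ A.biUnion fun α => P.biUnion fun e => cls α e := by
      intro v hv
      obtain ⟨h1, h2, h3, h4, α, hα, h5⟩ := hF v hv
      rw [Finset.mem_biUnion]
      refine ⟨α, hα, ?_⟩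
      rw [Finset.mem_biUnion]
      refine ⟨fun s => elist N (bigexp E (coord v s / α s)), ?_, ?_⟩
      · rw [hP, Fintype.mem_piFinset]
        intro s
        rw [Fintype.mem_piFinset]
        intro k
        rw [Finset.mem_range]
        by_cases h0 : elist N (bigexp E (coord v s / α s)) k = 0
        · rw [h0]
          omega
        · have h6 := elist_mem N _ k h0
          have h7 : coord v s / α s ≠ 0 := by
            have h8 := Nat.le_of_dvd (coord_pos v h1 s) (h5 s).1
            have h9 : 0 < α s := Nat.pos_of_dvd_of_pos (h5 s).1 (coord_pos v h1 s)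
            exact (Nat.div_pos h8 h9).ne'
          have h10 := bigexp_le E _ _ h7 h6
          have h11 : coord v s / α s ≤ v.1 + v.2 := by
            refine (Nat.div_le_self _ _).trans ?_
            fin_cases s
            · show v.1 ≤ v.1 + v.2
              omega
            · show v.2 ≤ v.1 + v.2
              omega
            · show v.1 + v.2 ≤ v.1 + v.2
              exact le_refl _
          have h12 : Real.log ((coord v s / α s : ℕ) : ℝ) ≤ Real.log ((v.1 + v.2 : ℕ) : ℝ) := by
            refine Real.log_le_log ?_ ?_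
            · exact_mod_cast Nat.pos_of_ne_zero h7
            · exact_mod_cast h11
          have h13 : ((elist N (bigexp E (coord v s / α s)) k : ℕ) : ℝ) ≤ 2 * X ^ η := by
            linarith
          have h14 := Nat.le_floor h13
          omega
      · rw [hcls]
        simp only [Finset.mem_filter]
        exact ⟨hv, fun s => ⟨(h5 s).1, (h5 s).2, trivial⟩⟩
    have hone' : ∀ α ∈ A, ∀ e ∈ P, ((cls α e).card : ℝ) ≤ X ^ (ε / 2) := by
      intro α _ e he
      have h1 : ((cls α e).card : ℝ) ≤ (X ^ (E + 1)) ^ (ε / (2 * ((E : ℝ) + 1))) := by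
        refine one_class N E K' η' X0 _ hS X e α (cls α e) hX ((hX1a.trans hge).trans hXE) ?_ ?_ ?_
        · linarith
        · intro s k
          rw [hP, Fintype.mem_piFinset] at he
          have h2 := he s
          rw [Fintype.mem_piFinset] at h2
          have h3 := Finset.mem_range.1 (h2 k)
          have h4 : ((e s k : ℕ) : ℝ) ≤ (M : ℝ) := by exact_mod_cast (by omega : e s k ≤ M)
          have h5 : (M : ℝ) ≤ 2 * X ^ η := Nat.floor_le (by positivity)
          linarith
        · intro v hv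
          have hv' := hv
          rw [hcls] at hv'
          simp only [Finset.mem_filter] at hv'
          obtain ⟨h2, h3, h4, h5, -⟩ := hF v hv'.1
          refine ⟨h2, h3, ?_, ?_, hv'.2⟩
          · refine le_trans (le_of_eq ?_) h4
            rw [← Real.rpow_natCast, ← Real.rpow_mul hXpos.le]
            congr 1
            push_cast
            ring
          · linarith
      refine h1.trans (le_of_eq ?_)
      rw [← Real.rpow_natCast, ← Real.rpow_mul hXpos.le]
      congr 1
      push_cast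
      field_simp
    have hsum : (F.card : ℝ) ≤ ∑ α ∈ A, ∑ e ∈ P, ((cls α e).card : ℝ) := by
      have h1 : F.card ≤ ∑ α ∈ A, ∑ e ∈ P, (cls α e).card := by
        refine (Finset.card_le_card hcover).trans ?_
        refine Finset.card_biUnion_le.trans ?_
        exact Finset.sum_le_sum fun α _ => Finset.card_biUnion_le
      exact_mod_cast h1
    calc (F.card : ℝ) ≤ ∑ α ∈ A, ∑ e ∈ P, ((cls α e).card : ℝ) := hsum
      _ ≤ ∑ α ∈ A, ∑ e ∈ P, X ^ (ε / 2) :=
          Finset.sum_le_sum fun α hα => Finset.sum_le_sum fun e he => hone' α hα e he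
      _ = A.card * (((M + 1) ^ N) ^ 3 * X ^ (ε / 2)) := by
          rw [Finset.sum_const, Finset.sum_const, nsmul_eq_mul, nsmul_eq_mul, hPc]
          push_cast
          ring
      _ ≤ A.card * (X ^ (ε / 2) * X ^ (ε / 2)) := by gcongr
      _ = 1 * A.card * X ^ ε := by
          rw [← Real.rpow_add hXpos]
          have : ε / 2 + ε / 2 = ε := by ring
          rw [this]
          ring
      _ ≤ max 1 ((B0 : ℝ) * B0) * A.card * X ^ ε := by gcongr

theorem pwe_thm (h : S_PWC) : S_PWE := by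
  intro N E ε hε
  obtain ⟨K, η, C, hK, hη, hC, h1⟩ := pwa_thm h N E ε hε
  refine ⟨K, η, C, hK, hη, hC, ?_⟩
  intro X F hX hF
  have h2 := h1 X {fun _ => 1} F hX ?_
  · simpa using h2
  · intro v hv
    obtain ⟨h3, h4, h5, h6, h7⟩ := hF v hv
    refine ⟨h3, h4, h5, h6, fun _ => 1, Finset.mem_singleton_self _, fun s => ⟨one_dvd _, ?_⟩⟩
    rw [Nat.div_one]
    exact h7 s

end Pool.PW
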