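import Pool.Agent.H98.PW.Stmts

/-!
# PW: the class theorem from the limit theorem (row PWC)
-/

set_option autoImplicit false

namespace Pool.PW

open Finset Filter MvPolynomial

theorem pwc_thm (hPWN : S_PWN) : S_PWC := by
  classical
  intro n ε hε
  by_contra hcon
  push Not at hcon
  have hc : ∀ j : ℕ, ∃ (X : ℝ) (e : Fin n → ℕ) (sd : Fin n → Fin 3) (α : Fin 3 → ℕ)
      (S : Finset (Fin n → ℕ)), ((j : ℝ) + 2 ≤ X ∧ (∀ k, (e k : ℝ) ≤ X ^ (1 / ((j : ℝ) + 1))) ∧
      (∀ s, 0 < α s) ∧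
      (∀ x ∈ S, (∀ k, 1 ≤ x k ∧ (x k : ℝ) ≤ X) ∧ tm e sd α 0 x + tm e sd α 1 x = tm e sd α 2 x ∧
        (tm e sd α 0 x).Coprime (tm e sd α 1 x) ∧ X ^ ((j : ℝ) + 1) ≤ (tm e sd α 2 x : ℝ) ∧
        Real.log (tm e sd α 2 x) ≤ X ^ (1 / ((j : ℝ) + 1))) ∧
      (∀ x ∈ S, ∀ y ∈ S, (∀ s, tm e sd α s x = tm e sd α s y) → x = y)) ∧
      X ^ ε < (S.card : ℝ) := by
    intro j
    have hj : (0 : ℝ) ≤ (j : ℝ) := Nat.cast_nonneg j
    have hj1 : (0 : ℝ) < (j : ℝ) + 1 := by linarith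
    have h1 : (0 : ℝ) < 1 / ((j : ℝ) + 1) := by positivity
    have h2 : 1 / ((j : ℝ) + 1) ≤ 1 := by
      rw [div_le_one hj1]
      linarith
    obtain ⟨X, e, sd, α, S, h3, h4, h5, h6, h7, h8⟩ :=
      hcon ((j : ℝ) + 1) (1 / ((j : ℝ) + 1)) ((j : ℝ) + 2) (by linarith) h1 h2 (by linarith)
    exact ⟨X, e, sd, α, S, ⟨h3, h4, h5, h6, h7⟩, h8⟩
  choose X e sd α S hA hB using hc
  set U : Ultrafilter ℕ := hyperfilter ℕ with hU
  have hUle : (U : Filter ℕ) ≤ atTop := by
    rw [hU, ← Nat.cofinite_eq_atTop]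
    exact hyperfilter_le_cofinite
  -- one pattern
  obtain ⟨sd0, hsd0⟩ := Ultrafilter.eq_pure_of_finite (U.map sd)
  have hsd : ∀ᶠ m in (U : Filter ℕ), sd m = sd0 := by
    have h1 : {sd0} ∈ U.map sd := by
      rw [hsd0]
      exact Set.mem_singleton sd0
    have h2 : sd ⁻¹' {sd0} ∈ U := h1
    exact h2
  set T : ℕ → Finset (Fin n → ℕ) := fun m => if sd m = sd0 then S m else ∅ with hT
  have hTS : ∀ᶠ m in (U : Filter ℕ), T m = S m ∧ sd m = sd0 := by
    filter_upwards [hsd] with m hm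
    refine ⟨?_, hm⟩
    simp only [hT]
    rw [if_pos hm]
  have hX2 : ∀ m, 2 ≤ X m := fun m => by
    have := (hA m).1
    have hj : (0 : ℝ) ≤ (m : ℝ) := Nat.cast_nonneg m
    linarith
  have hXt : Tendsto X U atTop := by
    have h1 : Tendsto (fun m : ℕ => (m : ℝ)) U atTop :=
      tendsto_natCast_atTop_atTop.mono_left hUle
    refine tendsto_atTop_mono (fun m => ?_) h1
    have := (hA m).1
    linarith
  have hcsmall : ∀ c : ℝ, 0 < c → ∀ᶠ m : ℕ in (U : Filter ℕ), 1 / ((m : ℝ) + 1) ≤ c := by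
    intro c hc
    have h1 : ∀ᶠ m : ℕ in atTop, 1 / ((m : ℝ) + 1) ≤ c := by
      have h2 := tendsto_one_div_add_atTop_nhds_zero_nat (𝕜 := ℝ)
      filter_upwards [h2.eventually (gt_mem_nhds hc)] with m hm
      exact hm.le
    exact hUle h1
  have hKbig : ∀ K : ℝ, ∀ᶠ m : ℕ in (U : Filter ℕ), K ≤ (m : ℝ) + 1 := by
    intro K
    have h1 : ∀ᶠ m : ℕ in atTop, K ≤ (m : ℝ) + 1 := by
      have h2 := tendsto_natCast_atTop_atTop (R := ℝ)
      filter_upwards [h2.eventually_ge_atTop K] with m hm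
      linarith
    exact hUle h1
  have hbox : Box U X T := by
    filter_upwards [hTS] with m hm x hx k
    rw [hm.1] at hx
    exact ((hA m).2.2.2.1 x hx).1 k
  have heqn : Eqn U X T e sd0 α := by
    constructor
    · exact Filter.Eventually.of_forall fun m s => (hA m).2.2.1 s
    · filter_upwards [hTS] with m hm x hx
      rw [hm.1] at hx
      have := ((hA m).2.2.2.1 x hx).2.1
      rw [hm.2] at this
      exact this
    · filter_upwards [hTS] with m hm x hx
      rw [hm.1] at hx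
      have := ((hA m).2.2.2.1 x hx).2.2.1
      rw [hm.2] at this
      exact this
    · intro K
      filter_upwards [hTS, hKbig K] with m hm hK x hx
      rw [hm.1] at hx
      have h1 := ((hA m).2.2.2.1 x hx).2.2.2.1
      rw [hm.2] at h1
      exact (Real.rpow_le_rpow_of_exponent_le (by linarith [hX2 m]) hK).trans h1
    · intro c hc
      filter_upwards [hTS, hcsmall c hc] with m hm hK x hx
      rw [hm.1] at hx
      have h1 := ((hA m).2.2.2.1 x hx).2.2.2.2
      rw [hm.2] at h1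
      exact h1.trans (Real.rpow_le_rpow_of_exponent_le (by linarith [hX2 m]) hK)
    · intro c hc
      filter_upwards [hcsmall c hc] with m hK k
      exact ((hA m).2.1 k).trans (Real.rpow_le_rpow_of_exponent_le (by linarith [hX2 m]) hK)
    · filter_upwards [hTS] with m hm x hx y hy hxy
      rw [hm.1] at hx hy
      rw [← hm.2] at hxy
      exact (hA m).2.2.2.2 x hx y hy hxy
  refine hPWN U X n T e sd0 α hXt hbox heqn ⟨ε, hε, ?_⟩
  filter_upwards [hTS] with m hm
  rw [hm.1]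
  exact (hB m).le

end Pool.PW
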