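import Pool.Agent.H98.PW.Stmts

/-!
# PW: few exceptions to the weak abc inequality when there are few distinct large exponents

`S_PWA`: for all `N, E, ε` there are `K, η, C` such that for every finite set `A` of triples of
natural numbers at most `C |A| X^ε` coprime pairs `(a, b)` have, with `c = a + b`,
`rad (a b c) ≤ X`, `X^K ≤ c ≤ exp (X^η)` and `a = α_0 a'`, `b = α_1 b'`, `c = α_2 c'` for some
`α ∈ A` such that each of `a', b', c'` has at most `N` distinct exponents greater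
than `E` in its factorisation (no condition on the number of primes).

The unknowns of the class theorem `S_PWC` are, for each coordinate, the part with exponents `≤ E`
(one integer with exponent `1`) and the products of the primes with a given exponent `> E`.
-/

set_option autoImplicit false

namespace Pool.PW

open Finset Pool.Agent.H98.ABCR

/-- the exponents greater than `E` which occur in the factorisation of `a` -/
def bigexp (E a : ℕ) : Finset ℕ := (a.primeFactors.image (fun p => a.factorization p)).filter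
  (fun e => E < e)

/-- few exceptions when, up to coefficients from a finite set `A`, there are few distinct large
exponents -/
def S_PWA : Prop := ∀ (N E : ℕ) (ε : ℝ), 0 < ε → ∃ K η C : ℝ, 1 ≤ K ∧ 0 < η ∧ 1 ≤ C ∧
  ∀ (X : ℝ) (A : Finset (Fin 3 → ℕ)) (F : Finset (ℕ × ℕ)), 1 ≤ X →
  (∀ v ∈ F, IsTri v ∧ (RR v : ℝ) ≤ X ∧ X ^ K ≤ ((v.1 + v.2 : ℕ) : ℝ) ∧
    Real.log ((v.1 + v.2 : ℕ) : ℝ) ≤ X ^ η ∧
    ∃ α ∈ A, ∀ s, α s ∣ coord v s ∧ (bigexp E (coord v s / α s)).card ≤ N) →
  (F.card : ℝ) ≤ C * A.card * X ^ ε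

/-- few exceptions when there are few distinct large exponents -/
def S_PWE : Prop := ∀ (N E : ℕ) (ε : ℝ), 0 < ε → ∃ K η C : ℝ, 1 ≤ K ∧ 0 < η ∧ 1 ≤ C ∧
  ∀ (X : ℝ) (F : Finset (ℕ × ℕ)), 1 ≤ X →
  (∀ v ∈ F, IsTri v ∧ (RR v : ℝ) ≤ X ∧ X ^ K ≤ ((v.1 + v.2 : ℕ) : ℝ) ∧
    Real.log ((v.1 + v.2 : ℕ) : ℝ) ≤ X ^ η ∧ ∀ s, (bigexp E (coord v s)).card ≤ N) →
  (F.card : ℝ) ≤ C * X ^ ε

namespace H13E

/-- the part of `a` with exponents at most `E` -/
def lowpart (E a : ℕ) : ℕ :=
  ∏ p ∈ a.primeFactors.filter (fun p => a.factorization p ≤ E), p ^ a.factorization p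

/-- the product of the primes with exponent `e > E` -/
def lay (E e a : ℕ) : ℕ :=
  ∏ p ∈ a.primeFactors.filter (fun p => E < a.factorization p ∧ a.factorization p = e), p

theorem lowpart_pos (E a : ℕ) : 1 ≤ lowpart E a :=
  Finset.prod_pos fun _ hp =>
    pow_pos (Nat.prime_of_mem_primeFactors (Finset.mem_filter.1 hp).1).pos _

theorem lay_pos (E e a : ℕ) : 1 ≤ lay E e a :=
  Finset.prod_pos fun _ hp => (Nat.prime_of_mem_primeFactors (Finset.mem_filter.1 hp).1).pos

theorem rad_pos (a : ℕ) : 1 ≤ rad a :=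
  Finset.prod_pos fun _ hp => (Nat.prime_of_mem_primeFactors hp).pos

theorem lay_le (E e a : ℕ) : lay E e a ≤ rad a := by
  unfold lay rad
  refine Finset.prod_le_prod_of_subset_of_one_le' (Finset.filter_subset _ _) ?_
  intro p hp _
  exact (Nat.prime_of_mem_primeFactors hp).one_le

theorem lowpart_le (E a : ℕ) : lowpart E a ≤ rad a ^ E := by
  unfold lowpart rad
  rw [← Finset.prod_pow]
  calc ∏ p ∈ a.primeFactors.filter (fun p => a.factorization p ≤ E), p ^ a.factorization p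
      ≤ ∏ p ∈ a.primeFactors.filter (fun p => a.factorization p ≤ E), p ^ E := by
        refine Finset.prod_le_prod' fun p hp => ?_
        rw [Finset.mem_filter] at hp
        exact Nat.pow_le_pow_right (Nat.prime_of_mem_primeFactors hp.1).pos hp.2
    _ ≤ ∏ p ∈ a.primeFactors, p ^ E := by
        refine Finset.prod_le_prod_of_subset_of_one_le' (Finset.filter_subset _ _) ?_
        intro p hp _
        exact Nat.one_le_pow _ _ (Nat.prime_of_mem_primeFactors hp).pos

/-- the factorisation of `a` into the layers -/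
theorem layers (E N a : ℕ) (ha : a ≠ 0) (e : Fin N → ℕ)
    (hinj : ∀ i j, e i ≠ 0 → e i = e j → i = j)
    (hsub : ∀ x ∈ bigexp E a, ∃ i, e i = x) :
    lowpart E a * ∏ i, lay E (e i) a ^ e i = a := by
  classical
  have h1 : ∏ p ∈ a.primeFactors, p ^ a.factorization p = a := by
    have := Nat.prod_factorization_pow_eq_self ha
    rw [Finsupp.prod] at this
    exact this
  have h2 : (∏ p ∈ a.primeFactors.filter (fun p => a.factorization p ≤ E), p ^ a.factorization p) *
      ∏ p ∈ a.primeFactors.filter (fun p => ¬ a.factorization p ≤ E), p ^ a.factorization p = a := by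
    rw [Finset.prod_filter_mul_prod_filter_not]
    exact h1
  have h3 : ∏ i, lay E (e i) a ^ e i =
      ∏ p ∈ a.primeFactors.filter (fun p => ¬ a.factorization p ≤ E), p ^ a.factorization p := by
    have h4 : ∀ i, lay E (e i) a ^ e i = ∏ p ∈ (a.primeFactors.filter
        (fun p => ¬ a.factorization p ≤ E)).filter (fun p => a.factorization p = e i),
        p ^ a.factorization p := by
      intro i
      unfold lay
      rw [← Finset.prod_pow, Finset.filter_filter]
      refine Finset.prod_congr ?_ ?_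
      · ext p
        simp only [Finset.mem_filter, not_le]
      · intro p hp
        rw [(Finset.mem_filter.1 hp).2.2]
    rw [Finset.prod_congr rfl fun i _ => h4 i]
    rw [← Finset.prod_biUnion]
    · refine Finset.prod_congr ?_ fun _ _ => rfl
      ext p
      simp only [Finset.mem_biUnion, Finset.mem_univ, true_and, Finset.mem_filter]
      constructor
      · rintro ⟨i, h, _⟩
        exact h
      · intro h
        obtain ⟨i, hi⟩ := hsub (a.factorization p) (by
          unfold bigexp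
          rw [Finset.mem_filter, Finset.mem_image]
          exact ⟨⟨p, h.1, rfl⟩, not_le.1 h.2⟩)
        exact ⟨i, h, hi.symm⟩
    · intro i _ j _ hij
      rw [Function.onFun, Finset.disjoint_left]
      intro p hp hq
      rw [Finset.mem_filter] at hp hq
      have h5 : e i = e j := hp.2.symm.trans hq.2
      have h6 : e i ≠ 0 := by
        rw [← hp.2]
        have := (Finset.mem_filter.1 hp.1).2
        omega
      exact hij (hinj i j h6 h5)
  rw [h3]
  exact h2

/-- a list of the large exponents, padded with zeros -/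
def elist (N : ℕ) (s : Finset ℕ) : Fin N → ℕ := fun i =>
  if h : (i : ℕ) < s.card then s.orderEmbOfFin rfl ⟨i, h⟩ else 0

theorem elist_mem (N : ℕ) (s : Finset ℕ) (i : Fin N) (h : elist N s i ≠ 0) :
    elist N s i ∈ s := by
  unfold elist at h ⊢
  split_ifs with h1
  · exact Finset.orderEmbOfFin_mem s rfl _
  · rw [dif_neg h1] at h
    exact absurd rfl h

theorem elist_inj (N : ℕ) (s : Finset ℕ) (i j : Fin N)
    (hi : elist N s i ≠ 0) (hij : elist N s i = elist N s j) : i = j := by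
  have hj : elist N s j ≠ 0 := by rw [← hij]; exact hi
  unfold elist at hi hj hij
  split_ifs at hi hj hij with h1 h2
  · have h3 := (s.orderEmbOfFin rfl).injective hij
    rw [Fin.mk.injEq] at h3
    exact Fin.ext h3
  · exact absurd rfl hj
  · exact absurd rfl hi
  · exact absurd rfl hi

theorem elist_sub (N : ℕ) (s : Finset ℕ) (hN : s.card ≤ N) (x : ℕ) (hx : x ∈ s) :
    ∃ i : Fin N, elist N s i = x := by
  have h1 : x ∈ Set.range (s.orderEmbOfFin rfl) := by
    rw [Finset.range_orderEmbOfFin]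
    exact hx
  obtain ⟨j, hj⟩ := h1
  refine ⟨⟨j, lt_of_lt_of_le j.2 hN⟩, ?_⟩
  unfold elist
  rw [dif_pos j.2]
  exact hj

/-- the unknowns of `b` for the list of exponents `e` -/
def unk (E N : ℕ) (e : Fin N → ℕ) (b : ℕ) : Fin (N + 1) → ℕ :=
  Fin.cons (lowpart E b) (fun k => lay E (e k) b)

/-- the exponents of the unknowns -/
def une (N : ℕ) (e : Fin N → ℕ) : Fin (N + 1) → ℕ := Fin.cons 1 e

theorem unk_prod (E N : ℕ) (e : Fin N → ℕ) (b : ℕ) (hb : b ≠ 0)
    (he : e = elist N (bigexp E b)) (hN : (bigexp E b).card ≤ N) :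
    ∏ j, unk E N e b j ^ une N e j = b := by
  rw [Fin.prod_univ_succ]
  simp only [unk, une, Fin.cons_zero, Fin.cons_succ, pow_one]
  refine layers E N b hb e ?_ ?_
  · intro i j hi hij
    rw [he] at hi hij
    exact elist_inj N _ i j hi hij
  · intro x hx
    rw [he]
    exact elist_sub N _ hN x hx

theorem unk_pos (E N : ℕ) (e : Fin N → ℕ) (b : ℕ) (j : Fin (N + 1)) : 1 ≤ unk E N e b j := by
  refine Fin.cases ?_ (fun k => ?_) j
  · simp only [unk, Fin.cons_zero]
    exact lowpart_pos E b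
  · simp only [unk, Fin.cons_succ]
    exact lay_pos E (e k) b

theorem unk_le (E N : ℕ) (e : Fin N → ℕ) (b : ℕ) (j : Fin (N + 1)) :
    unk E N e b j ≤ rad b ^ (E + 1) := by
  refine Fin.cases ?_ (fun k => ?_) j
  · simp only [unk, Fin.cons_zero]
    exact (lowpart_le E b).trans (Nat.pow_le_pow_right (rad_pos b) (Nat.le_succ E))
  · simp only [unk, Fin.cons_succ]
    refine (lay_le E (e k) b).trans ?_
    calc rad b = rad b ^ 1 := (pow_one _).symm
      _ ≤ rad b ^ (E + 1) := Nat.pow_le_pow_right (rad_pos b) (by omega)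

/-- exponents are at most twice the logarithm -/
theorem bigexp_le (E b : ℕ) (x : ℕ) (hb : b ≠ 0) (hx : x ∈ bigexp E b) :
    (x : ℝ) ≤ 2 * Real.log b := by
  unfold bigexp at hx
  rw [Finset.mem_filter, Finset.mem_image] at hx
  obtain ⟨⟨p, hp, rfl⟩, -⟩ := hx
  have h1 : p ^ b.factorization p ≤ b := Nat.ordProj_le p hb
  have h2 : 2 ^ b.factorization p ≤ b :=
    (Nat.pow_le_pow_left (Nat.prime_of_mem_primeFactors hp).two_le _).trans h1
  have h3 : ((2 : ℝ)) ^ b.factorization p ≤ (b : ℝ) := by exact_mod_cast h2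
  have h4 : Real.log ((2 : ℝ) ^ b.factorization p) ≤ Real.log b :=
    Real.log_le_log (by positivity) h3
  rw [Real.log_pow] at h4
  have h5 : (1 : ℝ) / 2 ≤ Real.log 2 := by linarith [Real.log_two_gt_d9]
  have h6 : (0 : ℝ) ≤ (b.factorization p : ℝ) := Nat.cast_nonneg _
  nlinarith

/-- the pattern -/
def sdd (N : ℕ) : Fin (3 * (N + 1)) → Fin 3 := fun i => (finProdFinEquiv.symm i).1

/-- the exponents of the point -/
def eed (N : ℕ) (e : Fin 3 → Fin N → ℕ) : Fin (3 * (N + 1)) → ℕ := fun i =>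
  une N (e (finProdFinEquiv.symm i).1) (finProdFinEquiv.symm i).2

/-- the point of a triple -/
def pnt (E N : ℕ) (e : Fin 3 → Fin N → ℕ) (α : Fin 3 → ℕ) (v : ℕ × ℕ) : Fin (3 * (N + 1)) → ℕ :=
  fun i => unk E N (e (finProdFinEquiv.symm i).1)
    (coord v (finProdFinEquiv.symm i).1 / α (finProdFinEquiv.symm i).1) (finProdFinEquiv.symm i).2

theorem prod_side (N : ℕ) (g : Fin (3 * (N + 1)) → ℕ) (s : Fin 3) :
    ∏ i ∈ univ.filter (fun i => sdd N i = s), g i = ∏ j : Fin (N + 1), g (finProdFinEquiv (s, j)) := by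
  symm
  refine Finset.prod_bij (fun j _ => finProdFinEquiv (s, j)) ?_ ?_ ?_ ?_
  · intro j _
    rw [Finset.mem_filter]
    refine ⟨Finset.mem_univ _, ?_⟩
    unfold sdd
    rw [Equiv.symm_apply_apply]
  · intro j _ j' _ h
    have h1 := finProdFinEquiv.injective h
    exact (Prod.mk.inj h1).2
  · intro i hi
    rw [Finset.mem_filter] at hi
    refine ⟨(finProdFinEquiv.symm i).2, Finset.mem_univ _, ?_⟩
    have h1 : (s, (finProdFinEquiv.symm i).2) = finProdFinEquiv.symm i := by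
      rw [← hi.2]
      rfl
    rw [h1, Equiv.apply_symm_apply]
  · intro j _
    rfl

theorem coord_pos (v : ℕ × ℕ) (hv : IsTri v) (s : Fin 3) : 0 < coord v s := by
  have h1 := hv.1
  have h2 := hv.2.1
  fin_cases s
  · exact h1
  · exact h2
  · show 0 < v.1 + v.2
    omega

theorem coord_dvd (v : ℕ × ℕ) (s : Fin 3) : coord v s ∣ nn v := by
  unfold nn
  fin_cases s
  · exact ⟨v.2 * (v.1 + v.2), by show _ = v.1 * _; ring⟩
  · exact ⟨v.1 * (v.1 + v.2), by show _ = v.2 * _; ring⟩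
  · exact ⟨v.1 * v.2, by show _ = (v.1 + v.2) * _; ring⟩

theorem nn_pos (v : ℕ × ℕ) (hv : IsTri v) : 0 < nn v := by
  have h1 := hv.1
  have h2 := hv.2.1
  unfold nn
  positivity

theorem tm_pnt (E N : ℕ) (e : Fin 3 → Fin N → ℕ) (α : Fin 3 → ℕ) (v : ℕ × ℕ) (hv : IsTri v)
    (h : ∀ s, α s ∣ coord v s ∧ (bigexp E (coord v s / α s)).card ≤ N ∧
      e s = elist N (bigexp E (coord v s / α s))) (s : Fin 3) :
    tm (eed N e) (sdd N) α s (pnt E N e α v) = coord v s := by
  unfold tm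
  rw [prod_side N (fun i => pnt E N e α v i ^ eed N e i) s]
  have h1 : ∀ j : Fin (N + 1), pnt E N e α v (finProdFinEquiv (s, j)) ^
      eed N e (finProdFinEquiv (s, j)) = unk E N (e s) (coord v s / α s) j ^ une N (e s) j := by
    intro j
    unfold pnt eed
    rw [Equiv.symm_apply_apply]
  rw [Finset.prod_congr rfl fun j _ => h1 j]
  have h2 : coord v s / α s ≠ 0 := by
    have h3 := Nat.le_of_dvd (coord_pos v hv s) (h s).1
    have h4 : 0 < α s := Nat.pos_of_dvd_of_pos (h s).1 (coord_pos v hv s)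
    exact (Nat.div_pos h3 h4).ne'
  rw [unk_prod E N (e s) _ h2 (h s).2.2 (h s).2.1]
  exact Nat.mul_div_cancel' (h s).1

theorem rad_le_RR (v : ℕ × ℕ) (hv : IsTri v) (b : ℕ) (hb : b ∣ nn v) : rad b ≤ RR v := by
  unfold RR rad
  refine Finset.prod_le_prod_of_subset_of_one_le'
    (Nat.primeFactors_mono hb (nn_pos v hv).ne') ?_
  intro p hp _
  exact (Nat.prime_of_mem_primeFactors hp).one_le

theorem tri_ext (v w : ℕ × ℕ) (h : ∀ s, coord v s = coord w s) : v = w := by
  have h0 : v.1 = w.1 := h 0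
  have h1 : v.2 = w.2 := h 1
  exact Prod.ext h0 h1

/-- one class -/
theorem one_class (N E : ℕ) (K η X0 ε' : ℝ)
    (hS : ∀ (X : ℝ) (e : Fin (3 * (N + 1)) → ℕ) (sd : Fin (3 * (N + 1)) → Fin 3) (α : Fin 3 → ℕ)
      (S : Finset (Fin (3 * (N + 1)) → ℕ)),
      X0 ≤ X → (∀ k, (e k : ℝ) ≤ X ^ η) → (∀ s, 0 < α s) →
      (∀ x ∈ S, (∀ k, 1 ≤ x k ∧ (x k : ℝ) ≤ X) ∧ tm e sd α 0 x + tm e sd α 1 x = tm e sd α 2 x ∧
        (tm e sd α 0 x).Coprime (tm e sd α 1 x) ∧ X ^ K ≤ (tm e sd α 2 x : ℝ) ∧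
        Real.log (tm e sd α 2 x) ≤ X ^ η) →
      (∀ x ∈ S, ∀ y ∈ S, (∀ s, tm e sd α s x = tm e sd α s y) → x = y) →
      (S.card : ℝ) ≤ X ^ ε')
    (X : ℝ) (e : Fin 3 → Fin N → ℕ) (α : Fin 3 → ℕ) (F : Finset (ℕ × ℕ)) (hX1 : 1 ≤ X)
    (hX : X0 ≤ X ^ (E + 1)) (he1 : 1 ≤ (X ^ (E + 1)) ^ η)
    (he : ∀ s k, (e s k : ℝ) ≤ (X ^ (E + 1)) ^ η)
    (hF : ∀ v ∈ F, IsTri v ∧ (RR v : ℝ) ≤ X ∧ (X ^ (E + 1)) ^ K ≤ ((v.1 + v.2 : ℕ) : ℝ) ∧
      Real.log ((v.1 + v.2 : ℕ) : ℝ) ≤ (X ^ (E + 1)) ^ η ∧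
      ∀ s, α s ∣ coord v s ∧ (bigexp E (coord v s / α s)).card ≤ N ∧
        e s = elist N (bigexp E (coord v s / α s))) :
    (F.card : ℝ) ≤ (X ^ (E + 1)) ^ ε' := by
  classical
  rcases F.eq_empty_or_nonempty with h0 | ⟨v0, hv0⟩
  · rw [h0]
    simp only [Finset.card_empty, Nat.cast_zero]
    positivity
  have hα : ∀ s, 0 < α s := fun s =>
    Nat.pos_of_dvd_of_pos ((hF v0 hv0).2.2.2.2 s).1 (coord_pos v0 (hF v0 hv0).1 s)
  have htm : ∀ v ∈ F, ∀ s, tm (eed N e) (sdd N) α s (pnt E N e α v) = coord v s :=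
    fun v hv s => tm_pnt E N e α v (hF v hv).1 (hF v hv).2.2.2.2 s
  have hinj : ∀ v ∈ F, ∀ w ∈ F, (∀ s, tm (eed N e) (sdd N) α s (pnt E N e α v) =
      tm (eed N e) (sdd N) α s (pnt E N e α w)) → v = w := by
    intro v hv w hw h
    refine tri_ext v w fun s => ?_
    rw [← htm v hv s, ← htm w hw s]
    exact h s
  have hcard : F.card = (F.image (pnt E N e α)).card := by
    rw [Finset.card_image_of_injOn]
    intro v hv w hw h
    refine hinj v hv w hw fun s => ?_
    have h' : pnt E N e α v = pnt E N e α w := h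
    rw [h']
  rw [hcard]
  refine hS (X ^ (E + 1)) (eed N e) (sdd N) α (F.image (pnt E N e α)) hX ?_ hα ?_ ?_
  · intro k
    have hk : ∀ (s : Fin 3) (j : Fin (N + 1)), ((une N (e s) j : ℕ) : ℝ) ≤ (X ^ (E + 1)) ^ η := by
      intro s j
      refine Fin.cases ?_ (fun i => ?_) j
      · simp only [une, Fin.cons_zero, Nat.cast_one]
        exact he1
      · simp only [une, Fin.cons_succ]
        exact he s i
    exact hk _ _
  · intro x hx
    obtain ⟨v, hv, rfl⟩ := Finset.mem_image.1 hx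
    obtain ⟨h1, h2, h3, h4, h5⟩ := hF v hv
    refine ⟨?_, ?_, ?_, ?_, ?_⟩
    · intro k
      have hk : ∀ (s : Fin 3) (j : Fin (N + 1)),
          ((unk E N (e s) (coord v s / α s) j : ℕ) : ℝ) ≤ X ^ (E + 1) := by
        intro s j
        have h6 : coord v s / α s ∣ nn v :=
          (Nat.div_dvd_of_dvd (h5 s).1).trans (coord_dvd v s)
        have h7 := unk_le E N (e s) (coord v s / α s) j
        have h8 := rad_le_RR v h1 _ h6
        have h9 : ((rad (coord v s / α s) : ℕ) : ℝ) ≤ X :=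
          (by exact_mod_cast h8 : ((rad (coord v s / α s) : ℕ) : ℝ) ≤ (RR v : ℝ)).trans h2
        calc ((unk E N (e s) (coord v s / α s) j : ℕ) : ℝ)
            ≤ ((rad (coord v s / α s) ^ (E + 1) : ℕ) : ℝ) := by exact_mod_cast h7
          _ = ((rad (coord v s / α s) : ℕ) : ℝ) ^ (E + 1) := by push_cast; ring
          _ ≤ X ^ (E + 1) := by gcongr
      exact ⟨unk_pos _ _ _ _ _, hk _ _⟩
    · rw [htm v hv 0, htm v hv 1, htm v hv 2]
      rfl
    · rw [htm v hv 0, htm v hv 1]
      exact h1.2.2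
    · rw [htm v hv 2]
      exact h3
    · rw [htm v hv 2]
      exact h4
  · intro x hx y hy hxy
    obtain ⟨v, hv, rfl⟩ := Finset.mem_image.1 hx
    obtain ⟨w, hw, rfl⟩ := Finset.mem_image.1 hy
    rw [hinj v hv w hw hxy]

end H13E

end Pool.PW
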