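import Pool.Agent.H98.PW.Stmts2
import Pool.Agent.H13.PW.PWE

/-!
# PW: power products (S_PWC => S_PWR)
-/

set_option autoImplicit false

namespace Pool.PW

open Finset Pool.Agent.H98.ABCR

namespace H13R

open H13E

/-- the pattern -/
def sdr (N : ℕ) : Fin (3 * N) → Fin 3 := fun i => (finProdFinEquiv.symm i).1

/-- functions on pairs as functions on `Fin (3 N)` -/
def flt (N : ℕ) (e : Fin 3 → Fin N → ℕ) : Fin (3 * N) → ℕ := fun i =>
  e (finProdFinEquiv.symm i).1 (finProdFinEquiv.symm i).2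

theorem prod_side (N : ℕ) (g : Fin (3 * N) → ℕ) (s : Fin 3) :
    ∏ i ∈ univ.filter (fun i => sdr N i = s), g i = ∏ j : Fin N, g (finProdFinEquiv (s, j)) := by
  symm
  refine Finset.prod_bij (fun j _ => finProdFinEquiv (s, j)) ?_ ?_ ?_ ?_
  · intro j _
    rw [Finset.mem_filter]
    refine ⟨Finset.mem_univ _, ?_⟩
    unfold sdr
    rw [Equiv.symm_apply_apply]
  · intro j _ j' _ h
    have h1 := finProdFinEquiv.injective h
    exact (Prod.mk.inj h1).2
  · intro i hi
    rw [Finset.mem_filter] at hi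
    refine ⟨(finProdFinEquiv.symm i).2, Finset.mem_univ _, ?_⟩
    have h1 : (s, (finProdFinEquiv.symm i).2) = finProdFinEquiv.symm i := by
      rw [← hi.2]
      rfl
    rw [h1, Equiv.apply_symm_apply]
  · intro j _
    rfl

theorem tm_flt (N : ℕ) (e x : Fin 3 → Fin N → ℕ) (α : Fin 3 → ℕ) (s : Fin 3) :
    tm (flt N e) (sdr N) α s (flt N x) = α s * ∏ k, x s k ^ e s k := by
  unfold tm
  rw [prod_side N (fun i => flt N x i ^ flt N e i) s]
  congr 1
  refine Finset.prod_congr rfl fun j _ => ?_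
  unfold flt
  rw [Equiv.symm_apply_apply]

/-- one class -/
theorem one_class (N : ℕ) (K η X0 ε' : ℝ)
    (hS : ∀ (X : ℝ) (e : Fin (3 * N) → ℕ) (sd : Fin (3 * N) → Fin 3) (α : Fin 3 → ℕ)
      (S : Finset (Fin (3 * N) → ℕ)),
      X0 ≤ X → (∀ k, (e k : ℝ) ≤ X ^ η) → (∀ s, 0 < α s) →
      (∀ x ∈ S, (∀ k, 1 ≤ x k ∧ (x k : ℝ) ≤ X) ∧ tm e sd α 0 x + tm e sd α 1 x = tm e sd α 2 x ∧
        (tm e sd α 0 x).Coprime (tm e sd α 1 x) ∧ X ^ K ≤ (tm e sd α 2 x : ℝ) ∧
        Real.log (tm e sd α 2 x) ≤ X ^ η) →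
      (∀ x ∈ S, ∀ y ∈ S, (∀ s, tm e sd α s x = tm e sd α s y) → x = y) →
      (S.card : ℝ) ≤ X ^ ε')
    (X : ℝ) (e : Fin 3 → Fin N → ℕ) (α : Fin 3 → ℕ) (F : Finset (ℕ × ℕ))
    (x : ℕ × ℕ → Fin 3 → Fin N → ℕ) (hX1 : 1 ≤ X)
    (hX : X0 ≤ X) (he : ∀ s k, (e s k : ℝ) ≤ X ^ η)
    (hF : ∀ v ∈ F, IsTri v ∧ X ^ K ≤ ((v.1 + v.2 : ℕ) : ℝ) ∧
      Real.log ((v.1 + v.2 : ℕ) : ℝ) ≤ X ^ η ∧
      ∀ s, (∀ k, 1 ≤ x v s k ∧ (x v s k : ℝ) ≤ X) ∧ coord v s = α s * ∏ k, x v s k ^ e s k) :
    (F.card : ℝ) ≤ X ^ ε' := by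
  classical
  rcases F.eq_empty_or_nonempty with h0 | ⟨v0, hv0⟩
  · rw [h0]
    simp only [Finset.card_empty, Nat.cast_zero]
    positivity
  have hα : ∀ s, 0 < α s := fun s => by
    refine Nat.pos_of_dvd_of_pos ?_ (coord_pos v0 (hF v0 hv0).1 s)
    exact ⟨_, ((hF v0 hv0).2.2.2 s).2⟩
  have htm : ∀ v ∈ F, ∀ s, tm (flt N e) (sdr N) α s (flt N (x v)) = coord v s := by
    intro v hv s
    rw [tm_flt, ← ((hF v hv).2.2.2 s).2]
  have hinj : ∀ v ∈ F, ∀ w ∈ F, (∀ s, tm (flt N e) (sdr N) α s (flt N (x v)) =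
      tm (flt N e) (sdr N) α s (flt N (x w))) → v = w := by
    intro v hv w hw h
    refine tri_ext v w fun s => ?_
    rw [← htm v hv s, ← htm w hw s]
    exact h s
  have hcard : F.card = (F.image (fun v => flt N (x v))).card := by
    rw [Finset.card_image_of_injOn]
    intro v hv w hw h
    refine hinj v hv w hw fun s => ?_
    have h' : flt N (x v) = flt N (x w) := h
    rw [h']
  rw [hcard]
  refine hS X (flt N e) (sdr N) α (F.image (fun v => flt N (x v))) hX ?_ hα ?_ ?_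
  · intro k
    exact he _ _
  · intro y hy
    obtain ⟨v, hv, rfl⟩ := Finset.mem_image.1 hy
    obtain ⟨h1, h3, h4, h5⟩ := hF v hv
    refine ⟨?_, ?_, ?_, ?_, ?_⟩
    · intro k
      exact (h5 _).1 _
    · rw [htm v hv 0, htm v hv 1, htm v hv 2]
      rfl
    · rw [htm v hv 0, htm v hv 1]
      exact h1.2.2
    · rw [htm v hv 2]
      exact h3
    · rw [htm v hv 2]
      exact h4
  · intro y hy z hz hxy
    obtain ⟨v, hv, rfl⟩ := Finset.mem_image.1 hy
    obtain ⟨w, hw, rfl⟩ := Finset.mem_image.1 hz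
    rw [hinj v hv w hw hxy]

end H13R

open H13E H13R in
theorem pwr_thm13 (h : S_PWC) : S_PWR := by
  classical
  intro N ε hε
  have hN : (0 : ℝ) < (N : ℝ) + 1 := by positivity
  obtain ⟨K', η', X0, hK', hη', hη1, hX0, hS⟩ := h (3 * N) (ε / 2) (by positivity)
  set η : ℝ := min (η' / 2) (ε / (12 * ((N : ℝ) + 1))) with hη
  have hη0 : 0 < η := lt_min (by positivity) (by positivity)
  have hηa : η ≤ η' / 2 := min_le_left _ _
  have hηb : η ≤ ε / (12 * ((N : ℝ) + 1)) := min_le_right _ _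
  set X1 : ℝ := max X0 (max ((2 : ℝ) ^ (2 / η')) (((3 : ℝ) ^ (3 * N)) ^ (4 / ε))) with hX1
  have hX1a : X0 ≤ X1 := le_max_left _ _
  have hX1b : (2 : ℝ) ^ (2 / η') ≤ X1 := (le_max_left _ _).trans (le_max_right _ _)
  have hX1c : ((3 : ℝ) ^ (3 * N)) ^ (4 / ε) ≤ X1 := (le_max_right _ _).trans (le_max_right _ _)
  set B0 : ℕ := ⌊Real.exp (X1 ^ η)⌋₊ + 1 with hB0
  refine ⟨K', η, max 1 ((B0 : ℝ) * B0), hK', hη0, le_max_left _ _, ?_⟩
  intro X α F hX hF
  have hXpos : 0 < X := by linarith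
  have hXe : 1 ≤ X ^ ε := Real.one_le_rpow hX hε.le
  have hC1 : (1 : ℝ) ≤ max 1 ((B0 : ℝ) * B0) := le_max_left _ _
  rcases lt_or_ge X X1 with hlt | hge
  · -- small `X`
    have h1 : F ⊆ range B0 ×ˢ range B0 := by
      intro v hv
      obtain ⟨h2, -, h3, -⟩ := hF v hv
      have h4 : Real.log ((v.1 + v.2 : ℕ) : ℝ) ≤ X1 ^ η :=
        h3.trans (Real.rpow_le_rpow hXpos.le hlt.le hη0.le)
      have h5 : (0 : ℝ) < ((v.1 + v.2 : ℕ) : ℝ) := by
        have := h2.1
        exact_mod_cast (by omega : 0 < v.1 + v.2)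
      have h6 : ((v.1 + v.2 : ℕ) : ℝ) ≤ Real.exp (X1 ^ η) := by
        rw [← Real.exp_log h5]
        exact Real.exp_le_exp.2 h4
      have h7 : v.1 + v.2 ≤ ⌊Real.exp (X1 ^ η)⌋₊ := Nat.le_floor h6
      rw [Finset.mem_product, Finset.mem_range, Finset.mem_range]
      constructor <;> omega
    have h2 : F.card ≤ B0 * B0 := by
      have := Finset.card_le_card h1
      rwa [Finset.card_product, Finset.card_range] at this
    have h3 : (F.card : ℝ) ≤ (B0 : ℝ) * B0 := by exact_mod_cast h2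
    calc (F.card : ℝ) ≤ max 1 ((B0 : ℝ) * B0) := h3.trans (le_max_right _ _)
      _ = max 1 ((B0 : ℝ) * B0) * 1 := by ring
      _ ≤ max 1 ((B0 : ℝ) * B0) * X ^ ε := by gcongr
  · -- large `X`
    have h2X : 2 ≤ X ^ (η' / 2) := by
      have h1 : ((2 : ℝ) ^ (2 / η')) ^ (η' / 2) ≤ X ^ (η' / 2) :=
        Real.rpow_le_rpow (by positivity) (hX1b.trans hge) (by positivity)
      rw [← Real.rpow_mul (by norm_num)] at h1
      have h2 : 2 / η' * (η' / 2) = 1 := by field_simp
      rw [h2, Real.rpow_one] at h1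
      exact h1
    have h2b : 2 * X ^ η ≤ X ^ η' := by
      have h1 : X ^ η ≤ X ^ (η' / 2) := Real.rpow_le_rpow_of_exponent_le hX hηa
      have h3 : X ^ (η' / 2) * X ^ (η' / 2) = X ^ η' := by
        rw [← Real.rpow_add hXpos]
        congr 1
        ring
      have h5 : 0 ≤ X ^ η := (Real.rpow_pos_of_pos hXpos η).le
      nlinarith
    have hone : 1 ≤ X ^ η := Real.one_le_rpow hX hη0.le
    set M : ℕ := ⌊2 * X ^ η⌋₊ with hM
    -- number of classes
    have hcl : (((M + 1) ^ N) ^ 3 : ℝ) ≤ X ^ (ε / 2) := by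
      have h1 : ((M : ℝ) + 1) ≤ 3 * X ^ η := by
        have h2 : (M : ℝ) ≤ 2 * X ^ η := Nat.floor_le (by positivity)
        linarith
      have h3 : (((M : ℝ) + 1) ^ N) ^ 3 ≤ (3 : ℝ) ^ (3 * N) * (X ^ η) ^ (3 * N) := by
        rw [← mul_pow, ← pow_mul, mul_comm N 3]
        exact pow_le_pow_left₀ (by positivity) h1 _
      have h4 : (3 : ℝ) ^ (3 * N) ≤ X ^ (ε / 4) := by
        have h5 : (((3 : ℝ) ^ (3 * N)) ^ (4 / ε)) ^ (ε / 4) ≤ X ^ (ε / 4) :=
          Real.rpow_le_rpow (by positivity) (hX1c.trans hge) (by positivity)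
        rw [← Real.rpow_mul (by positivity)] at h5
        have h6 : 4 / ε * (ε / 4) = 1 := by field_simp
        rw [h6, Real.rpow_one] at h5
        exact h5
      have h7 : (X ^ η) ^ (3 * N) ≤ X ^ (ε / 4) := by
        rw [← Real.rpow_natCast, ← Real.rpow_mul hXpos.le]
        refine Real.rpow_le_rpow_of_exponent_le hX ?_
        push_cast
        have h8 : η * (3 * (N : ℝ)) ≤ ε / (12 * ((N : ℝ) + 1)) * (3 * (N : ℝ)) :=
          mul_le_mul_of_nonneg_right hηb (by positivity)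
        have h9 : ε / (12 * ((N : ℝ) + 1)) * (3 * (N : ℝ)) ≤ ε / 4 := by
          rw [div_mul_eq_mul_div, div_le_div_iff₀ (by positivity) (by norm_num)]
          nlinarith
        linarith
      calc (((M : ℝ) + 1) ^ N) ^ 3 ≤ (3 : ℝ) ^ (3 * N) * (X ^ η) ^ (3 * N) := h3
        _ ≤ X ^ (ε / 4) * X ^ (ε / 4) := by
            apply mul_le_mul h4 h7 (by positivity)
            exact (Real.rpow_pos_of_pos hXpos _).le
        _ = X ^ (ε / 2) := by
            rw [← Real.rpow_add hXpos]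
            congr 1
            ring
    set P : Finset (Fin 3 → Fin N → ℕ) :=
      Fintype.piFinset (fun _ : Fin 3 => Fintype.piFinset (fun _ : Fin N => range (M + 1))) with hP
    have hPc : P.card = ((M + 1) ^ N) ^ 3 := by
      rw [hP]
      simp
    -- bases and exponents of the members
    have hch : ∀ v : ℕ × ℕ, ∃ x e : Fin 3 → Fin N → ℕ, v ∈ F →
        (∀ s k, 1 ≤ x s k ∧ (x s k : ℝ) ≤ X) ∧ (∀ s k, e s k < M + 1) ∧
        ∀ s, coord v s = α s * ∏ k, x s k ^ e s k := by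
      intro v
      by_cases hv : v ∈ F
      swap
      · exact ⟨fun _ _ => 0, fun _ _ => 0, fun h => absurd h hv⟩
      obtain ⟨h1, h2, h3, h4⟩ := hF v hv
      choose b hb hc using h4
      choose x e hx he using hb
      refine ⟨x, fun s k => if x s k = 1 then 0 else e s k, fun _ => ⟨hx, ?_, ?_⟩⟩
      · intro s k
        show (if x s k = 1 then 0 else e s k) < M + 1
        by_cases h5 : x s k = 1
        · rw [if_pos h5]
          omega
        · rw [if_neg h5]
          have h6 : 2 ≤ x s k := by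
            have := (hx s k).1
            omega
          have h7 : x s k ^ e s k ∣ coord v s := by
            rw [hc s, he s]
            exact Dvd.dvd.mul_left (Finset.dvd_prod_of_mem _ (Finset.mem_univ k)) _
          have h8 : x s k ^ e s k ≤ v.1 + v.2 := by
            refine (Nat.le_of_dvd (coord_pos v h1 s) h7).trans ?_
            fin_cases s
            · show v.1 ≤ v.1 + v.2
              omega
            · show v.2 ≤ v.1 + v.2
              omega
            · show v.1 + v.2 ≤ v.1 + v.2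
              exact le_refl _
          have h9 : 2 ^ e s k ≤ v.1 + v.2 := (Nat.pow_le_pow_left h6 _).trans h8
          have h10 : ((2 : ℝ)) ^ e s k ≤ ((v.1 + v.2 : ℕ) : ℝ) := by exact_mod_cast h9
          have h11 : Real.log ((2 : ℝ) ^ e s k) ≤ Real.log ((v.1 + v.2 : ℕ) : ℝ) :=
            Real.log_le_log (by positivity) h10
          rw [Real.log_pow] at h11
          have h12 : (1 : ℝ) / 2 ≤ Real.log 2 := by linarith [Real.log_two_gt_d9]
          have h13 : (0 : ℝ) ≤ (e s k : ℝ) := Nat.cast_nonneg _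
          have h14 : ((e s k : ℕ) : ℝ) ≤ 2 * X ^ η := by nlinarith
          have h15 := Nat.le_floor h14
          omega
      · intro s
        rw [hc s, he s]
        congr 1
        refine Finset.prod_congr rfl fun k _ => ?_
        show x s k ^ e s k = x s k ^ (if x s k = 1 then 0 else e s k)
        by_cases h5 : x s k = 1
        · rw [if_pos h5, h5]
          simp
        · rw [if_neg h5]
    choose x e hxe using hch
    set cls : (Fin 3 → Fin N → ℕ) → Finset (ℕ × ℕ) := fun e0 =>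
      F.filter (fun v => e v = e0) with hcls
    have hcover : F ⊆ P.biUnion fun e0 => cls e0 := by
      intro v hv
      rw [Finset.mem_biUnion]
      refine ⟨e v, ?_, ?_⟩
      · rw [hP, Fintype.mem_piFinset]
        intro s
        rw [Fintype.mem_piFinset]
        intro k
        rw [Finset.mem_range]
        exact (hxe v hv).2.1 s k
      · rw [hcls]
        exact Finset.mem_filter.2 ⟨hv, rfl⟩
    have hone' : ∀ e0 ∈ P, ((cls e0).card : ℝ) ≤ X ^ (ε / 2) := by
      intro e0 he0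
      refine H13R.one_class N K' η' X0 _ hS X e0 α (cls e0) x hX (hX1a.trans hge) ?_ ?_
      · intro s k
        rw [hP, Fintype.mem_piFinset] at he0
        have h2 := he0 s
        rw [Fintype.mem_piFinset] at h2
        have h3 := Finset.mem_range.1 (h2 k)
        have h4 : ((e0 s k : ℕ) : ℝ) ≤ (M : ℝ) := by exact_mod_cast (by omega : e0 s k ≤ M)
        have h5 : (M : ℝ) ≤ 2 * X ^ η := Nat.floor_le (by positivity)
        linarith
      · intro v hv
        rw [hcls] at hv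
        obtain ⟨hv1, hv2⟩ := Finset.mem_filter.1 hv
        obtain ⟨h2, h3, h4, -⟩ := hF v hv1
        refine ⟨h2, h3, by linarith, fun s => ⟨(hxe v hv1).1 s, ?_⟩⟩
        rw [← hv2]
        exact (hxe v hv1).2.2 s
    have hsum : (F.card : ℝ) ≤ ∑ e0 ∈ P, ((cls e0).card : ℝ) := by
      have h1 : F.card ≤ ∑ e0 ∈ P, (cls e0).card :=
        (Finset.card_le_card hcover).trans Finset.card_biUnion_le
      exact_mod_cast h1
    calc (F.card : ℝ) ≤ ∑ e0 ∈ P, ((cls e0).card : ℝ) := hsum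
      _ ≤ ∑ e0 ∈ P, X ^ (ε / 2) := Finset.sum_le_sum fun e0 he0 => hone' e0 he0
      _ = ((M + 1) ^ N) ^ 3 * X ^ (ε / 2) := by
          rw [Finset.sum_const, nsmul_eq_mul, hPc]
          push_cast
          ring
      _ ≤ X ^ (ε / 2) * X ^ (ε / 2) := by gcongr
      _ = 1 * X ^ ε := by
          rw [← Real.rpow_add hXpos]
          have : ε / 2 + ε / 2 = ε := by ring
          rw [this]
          ring
      _ ≤ max 1 ((B0 : ℝ) * B0) * X ^ ε := by gcongr

end Pool.PW
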