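import Pool.Agent.H98.PW.Stmts

/-!
# PW: the ideal of a generic family is stable (row STB)
-/

set_option autoImplicit false

namespace Pool.PW

open Finset Filter MvPolynomial

namespace H13

variable {U : Ultrafilter ℕ} {X : ℕ → ℝ} {n : ℕ}

theorem ev_mul (m : ℕ) (x : Fin n → ℕ) (F H : RP U X n) : ev m x (F * H) = ev m x F * ev m x H := by
  simp [ev, lv]

theorem ev_C (m : ℕ) (x : Fin n → ℕ) (a : Modr U X) : ev m x (C a : RP U X n) = lam m a := by
  simp [ev, lv]

theorem ev_of_lv (m : ℕ) (x : Fin n → ℕ) (F : RP U X n) (g : MvPolynomial (Fin n) ℤ)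
    (h : lv m F = map (Int.castRingHom ℚ) g) : ev m x F = ((eval (pt x) g : ℤ) : ℚ) := by
  unfold ev
  rw [h]
  have h1 : (fun k => (x k : ℚ)) = (Int.castRingHom ℚ) ∘ (pt x) := by
    funext k
    simp [pt]
  rw [h1, ← MvPolynomial.map_eval]
  rfl

/-- a large family is nonempty at almost all levels -/
theorem nonempty_of_large (T : ℕ → Finset (Fin n → ℕ)) (hX : Tendsto X U atTop)
    (hT : Large U X T) : ∀ᶠ m in (U : Filter ℕ), (T m).Nonempty := by
  obtain ⟨c, hc, h⟩ := hT
  filter_upwards [h, hX.eventually_gt_atTop 0] with m h1 h2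
  rw [← Finset.card_pos]
  have h3 : 0 < X m ^ c := Real.rpow_pos_of_pos h2 c
  have h4 : (0 : ℝ) < ((T m).card : ℝ) := lt_of_lt_of_le h3 h1
  exact_mod_cast h4

/-- `bb` does not vanish on a generic family -/
theorem bb_not_van (hprm : S_PRM) (T : ℕ → Finset (Fin n → ℕ)) (hX : Tendsto X U atTop)
    (hg : Gen U X T) (J : Finset (Fin n)) (G : Fin n → RP U X n)
    (nz : ∀ k, k ∉ J → ¬ Van T (pderiv k (G k))) : ¬ Van T (bb J G) := by
  have key : ∀ s : Finset (Fin n), (∀ k ∈ s, ¬ Van T (pderiv k (G k))) →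
      ¬ Van T (∏ k ∈ s, pderiv k (G k)) := by
    classical
    intro s
    induction s using Finset.induction_on with
    | empty =>
      intro _ hv
      rw [Finset.prod_empty] at hv
      have h1 := nonempty_of_large T hX hg.1
      obtain ⟨m, h2, x, hx⟩ := (hv.and h1).exists
      have h3 := h2 x hx
      simp [ev, lv] at h3
    | insert a s ha ih =>
      intro hk hv
      rw [Finset.prod_insert ha] at hv
      rcases (hprm U X n T hX hg).1 _ _ hv with h1 | h1
      · exact hk a (Finset.mem_insert_self a s) h1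
      · exact ih (fun k hk' => hk k (Finset.mem_insert_of_mem hk')) h1
  refine key _ ?_
  intro k hk
  exact nz k (Finset.mem_sdiff.1 hk).2

/-- the logarithm of a moderate value is small -/
theorem log_small (hX : Tendsto X U atTop) (B : ℕ) (c : ℝ) (hc : 0 < c) :
    ∀ᶠ m in (U : Filter ℕ), (B : ℝ) * Real.log (mm X m) ≤ X m ^ c := by
  have h1 : Tendsto (fun y : ℝ => (B : ℝ) * Real.log (2 + |y|) / y ^ c) atTop (nhds 0) := by
    have h2 : Tendsto (fun y : ℝ => Real.log y / y ^ c) atTop (nhds 0) := by
      have := isLittleO_log_rpow_atTop hc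
      exact this.tendsto_div_nhds_zero
    have h3 : Tendsto (fun y : ℝ => (1 : ℝ) / y ^ c) atTop (nhds 0) := by
      have h30 := (tendsto_rpow_atTop hc).inv_tendsto_atTop
      refine h30.congr fun y => ?_
      simp
    have h4 : Tendsto (fun y : ℝ => (B : ℝ) * (Real.log y / y ^ c + Real.log 2 * (1 / y ^ c)))
        atTop (nhds 0) := by
      have := (h2.add (h3.const_mul (Real.log 2))).const_mul (B : ℝ)
      simpa using this
    refine squeeze_zero' ?_ ?_ h4
    · filter_upwards [eventually_gt_atTop 2] with y hy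
      have h5 : 0 ≤ Real.log (2 + |y|) := Real.log_nonneg (by linarith [abs_nonneg y])
      have h6 : 0 < y ^ c := Real.rpow_pos_of_pos (by linarith) c
      positivity
    · filter_upwards [eventually_gt_atTop 2] with y hy
      have h6 : 0 < y ^ c := Real.rpow_pos_of_pos (by linarith) c
      have h7 : Real.log (2 + |y|) ≤ Real.log y + Real.log 2 := by
        rw [← Real.log_mul (by linarith) (by norm_num)]
        refine Real.log_le_log (by linarith [abs_nonneg y]) ?_
        rw [abs_of_pos (by linarith)]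
        linarith
      have h8 : (B : ℝ) * (Real.log y / y ^ c + Real.log 2 * (1 / y ^ c)) =
          (B : ℝ) * (Real.log y + Real.log 2) / y ^ c := by
        field_simp
      rw [h8]
      gcongr
  have h9 := h1.comp hX
  have h10 := h9.eventually (gt_mem_nhds one_pos)
  filter_upwards [h10, hX.eventually_gt_atTop 0] with m h11 h12
  have h13 : 0 < X m ^ c := Real.rpow_pos_of_pos h12 c
  simp only [Function.comp] at h11
  rw [div_lt_one h13] at h11
  exact h11.le

end H13

open H13 in
theorem stb_thm (h1 : S_DTN) (h2 : S_SCL) (h3 : S_HTE) (h4 : S_PRM) (h5 : S_MAP) (h6 : S_DLG) :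
    S_STB := by
  intro U X n T J G g hX hgen hbox hch i hi F hF
  by_contra hcon
  obtain ⟨a, g', hg'⟩ := h2 U X n F
  -- the scaled polynomial
  set F' : RP U X n := C a * F with hF'
  have hEE : EE J G i F' = C a * EE J G i F := by
    have e1 := ((h6 (Modr U X) n J G i).1) (C a) F
    have e2 : EE J G i (C a : RP U X n) = 0 := by
      unfold EE
      simp
    rw [hF', e1, e2, mul_zero, add_zero]
  have hnv : ¬ Van T (EE J G i F') := by
    intro hv
    refine hcon ?_
    filter_upwards [hv, hg'] with m hm1 hm2 x hx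
    have h7 := hm1 x hx
    rw [hEE, ev_mul, ev_C] at h7
    exact (mul_eq_zero.1 h7).resolve_left hm2.1
  have hbb : ¬ Van T (bb J G) := bb_not_van h4 T hX hgen J G hch.nz
  have hP : ¬ Van T (bb J G * EE J G i F') := by
    intro hv
    rcases (h4 U X n T hX hgen).1 _ _ hv with h | h
    · exact hbb h
    · exact hnv h
  obtain ⟨T'', hsub, hlarge, hne⟩ :=
    (h4 U X n T hX hgen).2 _ T hP (fun m => Finset.Subset.refl _) hgen.1
  -- the level formula
  have hlv : ∀ᶠ m in (U : Filter ℕ), lv m (bb J G * EE J G i F') =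
      map (Int.castRingHom ℚ) (bb J (g m) * EE J (g m) i (g' m)) := by
    filter_upwards [hch.lvg, hg'] with m hm1 hm2
    have e1 := h5 (Modr U X) ℚ (lam m) n J G
    have e2 := h5 ℤ ℚ (Int.castRingHom ℚ) n J (g m)
    have e3 : (fun k => map (lam m) (G k)) = fun k => map (Int.castRingHom ℚ) (g m k) := by
      funext k
      exact hm1 k
    have e4 : map (lam m) F' = map (Int.castRingHom ℚ) (g' m) := hm2.2
    unfold lv
    rw [map_mul, map_mul, e1.1, e1.2.1, e2.1, e2.2.1, e3, e4]
  obtain ⟨B, hB⟩ := h3 U X n (bb J G * EE J G i F')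
  refine h1 U X n T T'' J G g g' i hX hgen hbox hch hi hsub hlarge ?_ ?_
  · filter_upwards [hF, hg', hlv] with m hm1 hm2 hm3 x hx
    constructor
    · have e1 := ev_of_lv m x F' (g' m) hm2.2
      have e2 : ev m x F' = 0 := by
        rw [hF', ev_mul, hm1 x (hsub m hx), mul_zero]
      rw [e2] at e1
      exact_mod_cast e1.symm
    · intro h0
      have e1 := ev_of_lv m x _ _ hm3
      rw [h0] at e1
      exact hne m x hx (by rw [e1]; simp)
  · intro c hc
    filter_upwards [hB, hlv, hbox, log_small hX B c hc, hX.eventually_gt_atTop 0] with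
      m hm1 hm2 hm3 hm4 hm5 x hx
    have e1 := ev_of_lv m x _ _ hm2
    have e2 := hm1 x (fun k => (hm3 x (hsub m hx) k).2)
    rw [e1] at e2
    have e3 : |((eval (pt x) (bb J (g m) * EE J (g m) i (g' m)) : ℤ) : ℝ)| ≤ mm X m ^ B := by
      simpa using e2
    by_cases h0 : eval (pt x) (bb J (g m) * EE J (g m) i (g' m)) = 0
    · rw [h0]
      simp only [Int.cast_zero, abs_zero, Real.log_zero]
      exact (Real.rpow_pos_of_pos hm5 c).le
    · have e4 : 0 < |((eval (pt x) (bb J (g m) * EE J (g m) i (g' m)) : ℤ) : ℝ)| := by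
        rw [abs_pos]
        exact_mod_cast h0
      calc Real.log |((eval (pt x) (bb J (g m) * EE J (g m) i (g' m)) : ℤ) : ℝ)|
          ≤ Real.log (mm X m ^ B) := Real.log_le_log e4 e3
        _ = (B : ℝ) * Real.log (mm X m) := by rw [Real.log_pow]
        _ ≤ X m ^ c := hm4

end Pool.PW
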